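import Pool.Agent.H84.KBOX.Stmts
import Pool.Agent.H82.KAL.BOX
import Pool.Agent.H31.KAL.BXC
import Pool.Agent.H82.KAL.BXI
import Pool.Agent.H77.KAL.RMN
import Pool.Agent.H33.KAL.RMG
import Pool.Agent.H97.KAL.CDF
import Pool.Agent.H73.KAF.RST

/-!
# Row BXL of the board kbx: the box lemma for laws
-/

set_option autoImplicit false

namespace Pool.KBX

open Finset Real MeasureTheory
open Pool.Agent.H49.Ent Pool.Agent.H32.Dense Pool.STK Pool.KAF Pool.KAL Pool.KS3

namespace BXL

/-- The evaluation at a grid point. -/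
noncomputable def ev {n N : ℕ} (Q : MvPolynomial (Fin n) ℝ) (x : Fin n → Fin N) : ℝ :=
  MvPolynomial.eval (fun i => ((x i : ℕ) : ℝ)) Q

/-- Greedy extraction of classes. -/
theorem greedy (n k : ℕ) : ∃ Cb : ℕ, 1 ≤ Cb ∧ ∀ (N : ℕ) (f : (Fin n → Fin N) → ℝ) (σ E : ℝ),
    0 < σ → σ ≤ 1 → 0 ≤ E → (Cb : ℝ) ≤ σ ^ Cb * N → ∀ (m₀ : ℕ) (Z : Finset (Fin n → Fin N)),
    Z.card ≤ m₀ →
    (∀ (i : Fin n) (z : Fin n → Fin N), ∃ P : Polynomial ℝ, P.natDegree ≤ k ∧
      ∀ y : Fin N, Function.update z i y ∈ Z →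
        |f (Function.update z i y) - P.eval ((y : ℕ) : ℝ)| ≤ E) →
    ∃ (m : ℕ) (c : (Fin n → Fin N) → ℕ) (Q : ℕ → MvPolynomial (Fin n) ℝ)
      (X : ℕ → Finset (Fin n → Fin N)),
      (m : ℝ) * (σ ^ Cb * (N : ℝ) ^ n) ≤ Cb * Z.card ∧
      (∀ j i, (Q j).degreeOf i ≤ k) ∧
      (∀ j < m, X j ⊆ Z ∧ σ ^ Cb * (N : ℝ) ^ n ≤ Cb * (X j).card ∧
        ∀ x ∈ X j, |f x - ev (Q j) x| ≤ Cb * (1 / σ) ^ Cb * E) ∧
      (∀ j, m ≤ j → Q j = 0) ∧
      ∀ B ⊆ Z, (∀ x ∈ B, ¬ (c x < m ∧ x ∈ X (c x))) → (B.card : ℝ) ≤ σ * (N : ℝ) ^ n := by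
  classical
  obtain ⟨Cb, hCb, hbox⟩ := box_thm bxc_thm bxi_thm n k
  refine ⟨Cb, hCb, ?_⟩
  intro N f σ E hσ hσ1 hE hCN m₀
  induction m₀ with
  | zero =>
    intro Z hZ _
    have hZ0 : Z = ∅ := Finset.card_eq_zero.1 (Nat.le_zero.1 hZ)
    refine ⟨0, fun _ => 0, fun _ => 0, fun _ => ∅, ?_, ?_, ?_, fun _ _ => rfl, ?_⟩
    · rw [hZ0]
      simp
    · intro j i
      simp
    · intro j hj
      exact absurd hj (Nat.not_lt_zero _)
    · intro B hB _
      rw [hZ0, Finset.subset_empty] at hB
      rw [hB]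
      simp only [Finset.card_empty, Nat.cast_zero]
      positivity
  | succ m₀ ih =>
    intro Z hZ hf
    by_cases hlarge : σ * (N : ℝ) ^ n ≤ Z.card
    · obtain ⟨Q₀, hQ₀, X₀, hX₀Z, hX₀c, hX₀f⟩ := hbox N Z f σ E hσ hσ1 hE hCN hlarge hf
      -- the grid is not empty
      have hN0 : 0 < N := by
        rcases Nat.eq_zero_or_pos N with h | h
        · rw [h, Nat.cast_zero, mul_zero] at hCN
          have : (1 : ℝ) ≤ Cb := by exact_mod_cast hCb
          linarith only [hCN, this]
        · exact h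
      have hNR : (0 : ℝ) < N := by exact_mod_cast hN0
      have hpos : (0 : ℝ) < σ ^ Cb * (N : ℝ) ^ n := by positivity
      have hX₀pos : 0 < X₀.card := by
        rcases Nat.eq_zero_or_pos X₀.card with h | h
        · rw [h, Nat.cast_zero, mul_zero] at hX₀c
          linarith only [hX₀c, hpos]
        · exact h
      have hcard : (Z \ X₀).card + X₀.card = Z.card := Finset.card_sdiff_add_card_eq_card hX₀Z
      obtain ⟨m, c, Q, X, h1, h2, h3, h4, h5⟩ := ih (Z \ X₀) (by omega) (by
        intro i z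
        obtain ⟨P, hP, hPy⟩ := hf i z
        exact ⟨P, hP, fun y hy => hPy y (Finset.mem_sdiff.1 hy).1⟩)
      refine ⟨m + 1, fun x => if x ∈ X₀ then m else c x, fun j => if j = m then Q₀ else Q j,
        fun j => if j = m then X₀ else X j, ?_, ?_, ?_, ?_, ?_⟩
      · have e1 : (Z.card : ℝ) = (Z \ X₀).card + X₀.card := by exact_mod_cast hcard.symm
        rw [e1]
        push_cast
        nlinarith only [hX₀c, h1, h1, hX₀c]
      · intro j i
        dsimp only
        split_ifs
        · exact hQ₀ i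
        · exact h2 j i
      · intro j hj
        dsimp only
        by_cases hjm : j = m
        · rw [if_pos hjm, if_pos hjm]
          exact ⟨hX₀Z, hX₀c, hX₀f⟩
        · rw [if_neg hjm, if_neg hjm]
          obtain ⟨a1, a2, a3⟩ := h3 j (by omega)
          exact ⟨a1.trans Finset.sdiff_subset, a2, a3⟩
      · intro j hj
        dsimp only
        rw [if_neg (by omega), h4 j (by omega)]
      · intro B hB hBx
        have hBX : ∀ x ∈ B, x ∉ X₀ := by
          intro x hx hxX
          apply hBx x hx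
          dsimp only
          rw [if_pos hxX]
          exact ⟨Nat.lt_succ_self m, by rw [if_pos rfl]; exact hxX⟩
        apply h5 B (fun x hx => Finset.mem_sdiff.2 ⟨hB hx, hBX x hx⟩)
        rintro x hx ⟨hc1, hc2⟩
        apply hBx x hx
        dsimp only
        rw [if_neg (hBX x hx)]
        exact ⟨by omega, by rw [if_neg (by omega)]; exact hc2⟩
    · refine ⟨0, fun _ => 0, fun _ => 0, fun _ => ∅, ?_, ?_, ?_, fun _ _ => rfl, ?_⟩
      · rw [Nat.cast_zero, zero_mul]
        positivity
      · intro j i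
        simp
      · intro j hj
        exact absurd hj (Nat.not_lt_zero _)
      · intro B hB _
        have h1 : (B.card : ℝ) ≤ Z.card := by exact_mod_cast Finset.card_le_card hB
        linarith only [hlarge, h1, not_le.1 hlarge]

section Law

variable {W A : Type} [Fintype W] {n N : ℕ}

/-- The likelihood ratio with the uniform law. -/
noncomputable def lr (q : W → ℝ) (s : W → Fin n → Fin N) (E : W → A) (x : Fin n → Fin N)
    (a : A) : ℝ :=
  (N : ℝ) ^ n * law q (fun w => (s w, E w)) (x, a) / law q E a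

/-- Typical cells: the likelihood ratio is rarely large. -/
theorem typical {q : W → ℝ} (hq : IsLaw q) (s : W → Fin n → Fin N) (E : W → A) (hN : 1 ≤ N)
    (h β : ℝ) (hβ : 0 < β) (hh : 0 ≤ h) (hH : n * Real.log N - CH q s E ≤ h) :
    Pr q {w | Real.exp ((h + 1) / β) < lr q s E (s w) (E w)} ≤ β := by
  classical
  have hNR : (0 : ℝ) < N := by exact_mod_cast hN
  have hNn : (0 : ℝ) < (N : ℝ) ^ n := by positivity
  have hq0 := hq.nonneg
  set g : W → ℝ := fun w => Real.log (lr q s E (s w) (E w)) with hg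
  set u : W → ℝ := fun w => law q E (E w) / ((N : ℝ) ^ n *
    law q (fun w => (s w, E w)) (s w, E w)) with hu
  have hpos1 : ∀ w, 0 < q w → 0 < law q (fun w => (s w, E w)) (s w, E w) := fun w hw =>
    law_pos hq0 (fun w => (s w, E w)) hw
  have hpos2 : ∀ w, 0 < q w → 0 < law q E (E w) := fun w hw => law_pos hq0 E hw
  -- the mean of `g`
  have hgE : Ex q g ≤ h := by
    have e1 : Ex q g = n * Real.log N - CH q s E := by
      rw [CH_eq_neg_sum hq0]
      have e2 : Ex q g = Ex q (fun w => n * Real.log N - -Real.log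
          (law q (fun w => (s w, E w)) (s w, E w) / law q E (E w))) := by
        unfold Ex
        refine Finset.sum_congr rfl fun w _ => ?_
        rcases (hq0 w).eq_or_lt with h0 | h0
        · rw [← h0]
          simp
        · have a1 := hpos1 w h0
          have a2 := hpos2 w h0
          congr 1
          rw [hg]
          dsimp only
          unfold lr
          rw [mul_div_assoc, Real.log_mul hNn.ne' (div_pos a1 a2).ne', Real.log_pow]
          ring
      rw [e2, Ex_sub, Ex_const hq.sum_one]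
    rw [e1]
    exact hH
  -- the mean of `u`
  exact by
   have huE : Ex q u ≤ 1 := by
     have e1 : Ex q u = ∑ z ∈ univ.image (fun w => (s w, E w)), law q (fun w => (s w, E w)) z *
         (law q E z.2 / ((N : ℝ) ^ n * law q (fun w => (s w, E w)) z)) :=
       sum_mul_eq_sum_image q (fun w => (s w, E w))
         (fun z => law q E z.2 / ((N : ℝ) ^ n * law q (fun w => (s w, E w)) z))
     have e2 : ∀ z ∈ univ.image (fun w => (s w, E w)), law q (fun w => (s w, E w)) z *
         (law q E z.2 / ((N : ℝ) ^ n * law q (fun w => (s w, E w)) z)) ≤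
         law q E z.2 / (N : ℝ) ^ n := by
       intro z _
       by_cases h0 : law q (fun w => (s w, E w)) z = 0
       · rw [h0, zero_mul]
         exact div_nonneg (law_nonneg hq0 _ _) hNn.le
       · refine le_of_eq ?_
         field_simp
     have e3 : ∑ z ∈ univ.image (fun w => (s w, E w)), law q E z.2 / (N : ℝ) ^ n ≤
         ∑ z ∈ (univ : Finset (Fin n → Fin N)) ×ˢ (univ.image E), law q E z.2 / (N : ℝ) ^ n := by
       refine Finset.sum_le_sum_of_subset_of_nonneg ?_ ?_
       · intro z hz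
         obtain ⟨w, _, rfl⟩ := Finset.mem_image.mp hz
         exact Finset.mem_product.mpr ⟨Finset.mem_univ _,
           Finset.mem_image_of_mem _ (Finset.mem_univ _)⟩
       · intro z _ _
         exact div_nonneg (law_nonneg hq0 _ _) hNn.le
     have e4 : ∑ z ∈ (univ : Finset (Fin n → Fin N)) ×ˢ (univ.image E),
         law q E z.2 / (N : ℝ) ^ n = 1 := by
       rw [Finset.sum_product_right]
       have e5 : ∀ a ∈ univ.image E, ∑ x : Fin n → Fin N, law q E a / (N : ℝ) ^ n = law q E a := by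
         intro a _
         rw [Finset.sum_const, Finset.card_univ, nsmul_eq_mul]
         have : (Fintype.card (Fin n → Fin N) : ℝ) = (N : ℝ) ^ n := by simp
         rw [this]
         field_simp
       rw [Finset.sum_congr rfl e5, sum_law, hq.sum_one]
     rw [e1]
     exact (Finset.sum_le_sum e2).trans (e3.trans e4.le)
   -- the inequality between `g` and `u`
   exact by
    have hgu : ∀ w, 0 < q w → 0 ≤ g w + u w ∧ 0 ≤ u w := by
      intro w hw
      have a1 := hpos1 w hw
      have a2 := hpos2 w hw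
      have hu0 : 0 < u w := div_pos a2 (by positivity)
      refine ⟨?_, hu0.le⟩
      have e1 : g w = -Real.log (u w) := by
        rw [hg, hu]
        dsimp only
        unfold lr
        rw [← Real.log_inv, inv_div]
      have := Real.log_le_sub_one_of_pos hu0
      rw [e1]
      linarith only [this]
    have hK1 : 0 < (h + 1) / β := by positivity
    have hmk := CDF.markov hq0 (fun w => g w + u w) (fun w hw => (hgu w hw).1) ((h + 1) / β)
    rw [Ex_add] at hmk
    have hsub : Pr q {w | Real.exp ((h + 1) / β) < lr q s E (s w) (E w)} ≤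
        Pr q {w | (h + 1) / β < g w + u w} := by
      refine Pr_mono hq0 fun w hw hmem => ?_
      have h1 : Real.exp ((h + 1) / β) < lr q s E (s w) (E w) := hmem
      have h2 : (h + 1) / β < g w := by
        rw [hg]
        dsimp only
        rw [Real.lt_log_iff_exp_lt ((Real.exp_pos _).trans h1)]
        exact h1
      change (h + 1) / β < g w + u w
      linarith only [h2, hgu, hw, (hgu w hw).2]
    refine hsub.trans ?_
    have h3 : Pr q {w | (h + 1) / β < g w + u w} * ((h + 1) / β) ≤ β * ((h + 1) / β) := by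
      have : β * ((h + 1) / β) = h + 1 := by field_simp
      rw [this]
      linarith only [hgE, huE, hmk]
    exact le_of_mul_le_mul_right h3 hK1

/-- Small sets of typical cells have small probability. -/
theorem small {q : W → ℝ} (hq : IsLaw q) (s : W → Fin n → Fin N) (E : W → A) (hN : 1 ≤ N)
    (B : A → Finset (Fin n → Fin N)) (K σ : ℝ) (hK : 0 ≤ K)
    (hB : ∀ a, ∀ x ∈ B a, lr q s E x a ≤ K) (hc : ∀ a, ((B a).card : ℝ) ≤ σ * (N : ℝ) ^ n) :
    Pr q {w | s w ∈ B (E w)} ≤ K * σ := by
  classical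
  have hNR : (0 : ℝ) < N := by exact_mod_cast hN
  have hNn : (0 : ℝ) < (N : ℝ) ^ n := by positivity
  have hq0 := hq.nonneg
  have e1 : Pr q {w | s w ∈ B (E w)} = ∑ z ∈ univ.image (fun w => (s w, E w)),
      law q (fun w => (s w, E w)) z * (if z.1 ∈ B z.2 then 1 else 0) := by
    rw [← sum_mul_eq_sum_image q (fun w => (s w, E w)) (fun z => if z.1 ∈ B z.2 then (1 : ℝ) else 0),
      CDF.Pr_eq]
    refine Finset.sum_congr rfl fun w _ => ?_
    by_cases h : s w ∈ B (E w)
    · rw [if_pos (show w ∈ {w | s w ∈ B (E w)} from h)]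
      simp [h]
    · rw [if_neg (show w ∉ {w | s w ∈ B (E w)} from h)]
      simp [h]
  have e2 : ∀ z ∈ univ.image (fun w => (s w, E w)),
      law q (fun w => (s w, E w)) z * (if z.1 ∈ B z.2 then (1 : ℝ) else 0) ≤
      if z.1 ∈ B z.2 then K * law q E z.2 / (N : ℝ) ^ n else 0 := by
    intro z hz
    obtain ⟨w, _, rfl⟩ := Finset.mem_image.mp hz
    split_ifs with hzB
    · rw [mul_one]
      have h1 := hB _ _ hzB
      dsimp only at h1 hzB ⊢
      rcases (law_nonneg hq0 E (E w)).eq_or_lt with h0 | h0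
      · have h2 : law q (fun w => (s w, E w)) (s w, E w) ≤ law q E (E w) :=
          law_pair_le' hq0 s E (s w) (E w)
        rw [← h0] at h2 ⊢
        simpa using h2
      · unfold lr at h1
        rw [div_le_iff₀ h0] at h1
        rw [le_div_iff₀ hNn]
        linarith only [h1]
    · simp
  exact by
   have e3 : ∑ z ∈ univ.image (fun w => (s w, E w)),
       (if z.1 ∈ B z.2 then K * law q E z.2 / (N : ℝ) ^ n else 0) ≤
       ∑ z ∈ (univ : Finset (Fin n → Fin N)) ×ˢ (univ.image E),
         (if z.1 ∈ B z.2 then K * law q E z.2 / (N : ℝ) ^ n else 0) := by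
     refine Finset.sum_le_sum_of_subset_of_nonneg ?_ ?_
     · intro z hz
       obtain ⟨w, _, rfl⟩ := Finset.mem_image.mp hz
       exact Finset.mem_product.mpr ⟨Finset.mem_univ _,
         Finset.mem_image_of_mem _ (Finset.mem_univ _)⟩
     · intro z _ _
       have := law_nonneg hq0 E z.2
       split_ifs
       · positivity
       · exact le_rfl
   have e4 : ∑ z ∈ (univ : Finset (Fin n → Fin N)) ×ˢ (univ.image E),
         (if z.1 ∈ B z.2 then K * law q E z.2 / (N : ℝ) ^ n else 0) ≤ K * σ := by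
     rw [Finset.sum_product_right]
     have e5 : ∀ a ∈ univ.image E, ∑ x : Fin n → Fin N,
         (if x ∈ B a then K * law q E a / (N : ℝ) ^ n else 0) ≤ K * σ * law q E a := by
       intro a _
       rw [← Finset.sum_filter, Finset.sum_const, nsmul_eq_mul]
       have h1 : (univ.filter fun x => x ∈ B a) = B a := by ext x; simp
       rw [h1]
       have h2 := law_nonneg hq0 E a
       have h3 : ((B a).card : ℝ) * (K * law q E a / (N : ℝ) ^ n) ≤
           (σ * (N : ℝ) ^ n) * (K * law q E a / (N : ℝ) ^ n) :=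
         mul_le_mul_of_nonneg_right (hc a) (by positivity)
       refine h3.trans (le_of_eq ?_)
       field_simp
     refine (Finset.sum_le_sum e5).trans (le_of_eq ?_)
     rw [← Finset.mul_sum, sum_law, hq.sum_one, mul_one]
   exact by
    rw [e1]
    exact (Finset.sum_le_sum e2).trans (e3.trans e4)

/-- Union bound. -/
theorem Pr_iUnion {R : Type} [Fintype R] {q : W → ℝ} (hq0 : ∀ w, 0 ≤ q w) (S : R → Set W) :
    Pr q {w | ∃ r, w ∈ S r} ≤ ∑ r, Pr q (S r) := by
  classical
  simp_rw [CDF.Pr_eq]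
  rw [Finset.sum_comm]
  refine Finset.sum_le_sum fun w _ => ?_
  by_cases h : ∃ r, w ∈ S r
  · rw [if_pos (show w ∈ {w | ∃ r, w ∈ S r} from h)]
    obtain ⟨r₀, hr₀⟩ := h
    have := Finset.single_le_sum (f := fun r => if w ∈ S r then q w else 0)
      (fun r _ => by
        split_ifs
        exacts [hq0 w, le_rfl]) (Finset.mem_univ r₀)
    simpa [hr₀] using this
  · rw [if_neg (show w ∉ {w | ∃ r, w ∈ S r} from h)]
    refine Finset.sum_nonneg fun r _ => ?_
    split_ifs
    exacts [hq0 w, le_rfl]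

end Law

/-- Numerical facts. -/
theorem num (Cb Cr : ℕ) (hCb : 1 ≤ Cb) (hCr : 1 ≤ Cr) (h β R K σ : ℝ) (hβ : 0 < β) (hβ1 : β ≤ 1)
    (hh : 0 ≤ h) (hR : 1 ≤ R) (hK : K = (h + 1) / β ^ 2 + Real.log R)
    (hσ : σ = Real.exp (-((h + 1) / β)) * β / R) :
    1 ≤ K ∧ 0 < σ ∧ σ ≤ 1 ∧ Real.exp (-(2 * K * Cb)) ≤ σ ^ Cb ∧
      Cb * (1 / σ) ^ Cb ≤ Real.exp (3 * K * Cb) ∧ (Cb : ℝ) ≤ Real.exp (K * Cb) ∧
      (Cr : ℝ) ≤ Real.exp (K * Cr) ∧
      Real.exp (-(3 * K * Cb)) ≤ σ ^ Cb / Cb := by
  have hlogR : 0 ≤ Real.log R := Real.log_nonneg hR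
  have hR0 : 0 < R := lt_of_lt_of_le one_pos hR
  have hβ2 : 0 < β ^ 2 := by positivity
  have hβ21 : β ^ 2 ≤ β := by nlinarith only [hβ, hβ1]
  have hβ22 : β ^ 2 ≤ 1 := hβ21.trans hβ1
  have e1 : (h + 1) / β ≤ (h + 1) / β ^ 2 :=
    div_le_div_of_nonneg_left (by linarith only [hh]) hβ2 hβ21
  have e2 : 1 ≤ (h + 1) / β ^ 2 := by
    rw [le_div_iff₀ hβ2]
    linarith only [hβ1, hh, hβ21]
  have e3 : 1 / β ≤ (h + 1) / β ^ 2 :=
    (div_le_div_of_nonneg_right (by linarith only [hh]) hβ.le).trans e1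
  have e4 : -Real.log β ≤ 1 / β := by
    have := Real.log_le_sub_one_of_pos (x := 1 / β) (by positivity)
    rw [one_div, Real.log_inv] at this
    rw [one_div]
    linarith only [this]
  have hK1 : 1 ≤ K := by rw [hK]; linarith only [hlogR, e2]
  have hσ0 : 0 < σ := by rw [hσ]; positivity
  have hlogσ : Real.log σ = -((h + 1) / β) + Real.log β - Real.log R := by
    rw [hσ, Real.log_div (by positivity) hR0.ne', Real.log_mul (Real.exp_pos _).ne' hβ.ne',
      Real.log_exp]
  have hσe : Real.exp (-(2 * K)) ≤ σ := by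
    rw [← Real.le_log_iff_exp_le hσ0, hlogσ, hK]
    linarith only [hlogR, e1, e3, e4]
  have hσ1 : σ ≤ 1 := by
    rw [hσ, div_le_one hR0]
    have h1 : Real.exp (-((h + 1) / β)) ≤ 1 := by
      rw [Real.exp_le_one_iff]
      have : 0 ≤ (h + 1) / β := by positivity
      linarith only [this]
    nlinarith only [hβ1, hR, hβ, h1, Real.exp_pos (-((h + 1) / β))]
  exact by
   have hCb1 : (1 : ℝ) ≤ Cb := by exact_mod_cast hCb
   have hCr1 : (1 : ℝ) ≤ Cr := by exact_mod_cast hCr
   have f1 : Real.exp (-(2 * K * Cb)) ≤ σ ^ Cb := by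
     have := pow_le_pow_left₀ (Real.exp_pos _).le hσe Cb
     rw [← Real.exp_nat_mul] at this
     refine le_trans (le_of_eq ?_) this
     congr 1
     ring
   have f2 : (Cb : ℝ) ≤ Real.exp (K * Cb) := by
     have h1 := Real.add_one_le_exp (K * (Cb : ℝ))
     nlinarith only [h1, hK, hlogR, e2]
   have f3 : (Cr : ℝ) ≤ Real.exp (K * Cr) := by
     have h1 := Real.add_one_le_exp (K * (Cr : ℝ))
     nlinarith only [h1, hK, hlogR, e2]
   have hσC : 0 < σ ^ Cb := pow_pos hσ0 _
   have f4 : (1 / σ) ^ Cb ≤ Real.exp (2 * K * Cb) := by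
     rw [one_div, inv_pow, inv_le_comm₀ hσC (Real.exp_pos _), ← Real.exp_neg]
     exact f1
   refine ⟨hK1, hσ0, hσ1, f1, ?_, f2, f3, ?_⟩
   · have h1 : Cb * (1 / σ) ^ Cb ≤ Real.exp (K * Cb) * Real.exp (2 * K * Cb) :=
       mul_le_mul f2 f4 (by positivity) (Real.exp_pos _).le
     rw [← Real.exp_add] at h1
     refine h1.trans (le_of_eq ?_)
     congr 1
     ring
   · rw [le_div_iff₀ (by positivity)]
     have h1 : Real.exp (-(3 * K * Cb)) * Cb ≤ Real.exp (-(3 * K * Cb)) * Real.exp (K * Cb) :=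
       mul_le_mul_of_nonneg_left f2 (Real.exp_pos _).le
     rw [← Real.exp_add] at h1
     refine h1.trans (le_trans (le_of_eq ?_) f1)
     congr 1
     ring

end BXL

open BXL in
theorem bxl_thm : BXLStmt := by
  classical
  intro n k
  obtain ⟨Cb, hCb, hgr⟩ := greedy n k
  obtain ⟨Cr, hCr, hrm⟩ := rmn_thm rmg_thm n k
  have hCb1 : (1 : ℝ) ≤ Cb := by exact_mod_cast hCb
  have hCr1 : (1 : ℝ) ≤ Cr := by exact_mod_cast hCr
  have hCC : (1 : ℝ) ≤ Cb * Cr := by nlinarith only [hCb1, hCr1]
  have hC1 : (Cb : ℝ) ≤ Cb * Cr := by nlinarith only [hCr1]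
  have hC2 : (Cr : ℝ) ≤ Cb * Cr := by nlinarith only [hCb1]
  refine ⟨9 * (Cb * Cr), by linarith only [hCC], ?_⟩
  intro W 𝓔 𝓡 _ _ q N s E r v P h β E₁ 𝒜 hq hN hβ hβ1 hE₁ hh h𝒜 hv2 hv hP hPl hH hCN
  have hq0 := hq.nonneg
  have hNR : (0 : ℝ) < N := by exact_mod_cast hN
  have hNn : (0 : ℝ) < (N : ℝ) ^ n := by positivity
  have hR : (1 : ℝ) ≤ (Fintype.card 𝓡 : ℝ) + 1 := by
    have : (0 : ℝ) ≤ Fintype.card 𝓡 := Nat.cast_nonneg _
    linarith only
  generalize hRdef : (Fintype.card 𝓡 : ℝ) + 1 = R at hR hCN ⊢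
  generalize hKdef : (h + 1) / β ^ 2 + Real.log R = K at hCN ⊢
  obtain ⟨σ, hσdef⟩ : ∃ σ : ℝ, σ = Real.exp (-((h + 1) / β)) * β / R := ⟨_, rfl⟩
  obtain ⟨hK1, hσ0, hσ1, f1, f2, f3, f4, f5⟩ :=
    num Cb Cr hCb hCr h β R K σ hβ hβ1 hh hR hKdef.symm hσdef
  have hK0 : 0 < K := lt_of_lt_of_le one_pos hK1
  have hKC : K * Cb ≤ K * (Cb * Cr) := mul_le_mul_of_nonneg_left hC1 hK0.le
  have hKC' : K * Cr ≤ K * (Cb * Cr) := mul_le_mul_of_nonneg_left hC2 hK0.le
  have hKC1 : 1 ≤ K * (Cb * Cr) := by nlinarith only [hCb1, hKC, hK1]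
  have hNexp : Real.exp (9 * (Cb * Cr) * K) ≤ N := by
    rwa [← Real.le_log_iff_exp_le hNR]
  have hσC : 0 < σ ^ Cb := pow_pos hσ0 _
  -- the condition of the box lemma
  exact by
   have hbox : (Cb : ℝ) ≤ σ ^ Cb * N := by
     have h1 : Real.exp (-(2 * K * Cb)) * Real.exp (9 * (Cb * Cr) * K) ≤ σ ^ Cb * N :=
       mul_le_mul f1 hNexp (Real.exp_pos _).le hσC.le
     refine f3.trans (le_trans ?_ h1)
     rw [← Real.exp_add, Real.exp_le_exp]
     nlinarith only [hKC, hKC1]
   -- cells and values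
   set f : 𝓔 → 𝓡 → (Fin n → Fin N) → ℝ := fun a r' x =>
     if hx : ∃ w ∈ 𝒜, E w = a ∧ r w = r' ∧ s w = x then v hx.choose else 0 with hf
   have hfv : ∀ w ∈ 𝒜, f (E w) (r w) (s w) = v w := by
     intro w hw
     have hx : ∃ w' ∈ 𝒜, E w' = E w ∧ r w' = r w ∧ s w' = s w := ⟨w, hw, rfl, rfl, rfl⟩
     rw [hf]
     dsimp only
     rw [dif_pos hx]
     obtain ⟨h1, h2, h3, h4⟩ := hx.choose_spec
     exact hv _ h1 w hw h2 h3 h4
   set Z : 𝓔 → 𝓡 → Finset (Fin n → Fin N) := fun a r' => univ.filter fun x =>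
     lr q s E x a ≤ Real.exp ((h + 1) / β) ∧ ∃ w ∈ 𝒜, E w = a ∧ r w = r' ∧ s w = x with hZ
   have hZmem : ∀ a r' x, x ∈ Z a r' → lr q s E x a ≤ Real.exp ((h + 1) / β) ∧
       ∃ w ∈ 𝒜, E w = a ∧ r w = r' ∧ s w = x := by
     intro a r' x hx
     exact (Finset.mem_filter.1 hx).2
   have hline : ∀ (a : 𝓔) (r' : 𝓡) (i : Fin n) (z : Fin n → Fin N), ∃ P' : Polynomial ℝ,
       P'.natDegree ≤ k ∧ ∀ y : Fin N, Function.update z i y ∈ Z a r' →
         |f a r' (Function.update z i y) - P'.eval ((y : ℕ) : ℝ)| ≤ E₁ := by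
     intro a r' i z
     by_cases hex : ∃ y : Fin N, Function.update z i y ∈ Z a r'
     · obtain ⟨y₀, hy₀⟩ := hex
       obtain ⟨-, w₀, hw₀, hE₀, hr₀, hs₀⟩ := hZmem _ _ _ hy₀
       refine ⟨P i w₀, (hPl i w₀ hw₀).1, ?_⟩
       intro y hy
       obtain ⟨-, w, hw, hEw, hrw, hsw⟩ := hZmem _ _ _ hy
       have h1 : P i w = P i w₀ := by
         refine hP i w hw w₀ hw₀ (hEw.trans hE₀.symm) (hrw.trans hr₀.symm) ?_
         intro i' hi'
         rw [hsw, hs₀, Function.update_of_ne hi', Function.update_of_ne hi']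
       have h2 := (hPl i w hw).2
       rw [h1] at h2
       have h3 : s w i = y := by rw [hsw, Function.update_self]
       rw [h3] at h2
       have h4 := hfv w hw
       rw [hEw, hrw, hsw] at h4
       rw [h4]
       exact h2
     · exact ⟨0, by simp, fun y hy => absurd ⟨y, hy⟩ hex⟩
   choose m c Q X h1 h2 h3 h4 h5 using fun (a : 𝓔) (r' : 𝓡) =>
     hgr N (f a r') σ E₁ hσ0 hσ1 hE₁ hbox (Z a r').card (Z a r') le_rfl (hline a r')
   -- number of classes
   exact by
    have hm : ∀ a r', (m a r' : ℝ) ≤ Real.exp (9 * (Cb * Cr) * K) := by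
      intro a r'
      have e1 : ((Z a r').card : ℝ) ≤ (N : ℝ) ^ n := by
        have : (Z a r').card ≤ Fintype.card (Fin n → Fin N) := Finset.card_le_univ _
        have e2 : (Fintype.card (Fin n → Fin N) : ℝ) = (N : ℝ) ^ n := by simp
        rw [← e2]
        exact_mod_cast this
      have e2 : (m a r' : ℝ) * σ ^ Cb * (N : ℝ) ^ n ≤ Cb * (N : ℝ) ^ n := by
        have := h1 a r'
        have e3 : (Cb : ℝ) * (Z a r').card ≤ Cb * (N : ℝ) ^ n :=
          mul_le_mul_of_nonneg_left e1 (by positivity)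
        rw [mul_assoc]
        exact this.trans e3
      have e3 : (m a r' : ℝ) * σ ^ Cb ≤ Cb := le_of_mul_le_mul_right e2 hNn
      have e4 : (m a r' : ℝ) ≤ Cb * (1 / σ) ^ Cb := by
        rw [one_div, inv_pow, ← div_eq_mul_inv, le_div_iff₀ hσC]
        exact e3
      refine e4.trans (f2.trans ?_)
      rw [Real.exp_le_exp]
      nlinarith only [hKC, hKC1]
    -- the classes of a sample
    set B : 𝓡 → 𝓔 → Finset (Fin n → Fin N) := fun r' a => (Z a r').filter fun x =>
      ¬ (c a r' x < m a r' ∧ x ∈ X a r' (c a r' x)) with hB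
    have hBc : ∀ r' a, ((B r' a).card : ℝ) ≤ σ * (N : ℝ) ^ n := by
      intro r' a
      refine h5 a r' (B r' a) (Finset.filter_subset _ _) ?_
      intro x hx
      exact (Finset.mem_filter.1 hx).2
    set ok : W → Prop := fun w => c (E w) (r w) (s w) < m (E w) (r w) ∧
      s w ∈ X (E w) (r w) (c (E w) (r w) (s w)) with hok
    exact by
     refine ⟨fun w => if ok w then c (E w) (r w) (s w) else 0, fun a r' i' => Q a r' i',
       {w | w ∈ 𝒜 ∧ lr q s E (s w) (E w) ≤ Real.exp ((h + 1) / β) ∧ ok w}, ?_, ?_, ?_, ?_, ?_, ?_⟩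
     · intro w hw
       exact hw.1
     · -- probability
       have hsub : Pr q {w | w ∈ 𝒜 ∧ lr q s E (s w) (E w) ≤ Real.exp ((h + 1) / β) ∧ ok w}ᶜ ≤
           Pr q ((𝒜ᶜ ∪ {w | Real.exp ((h + 1) / β) < lr q s E (s w) (E w)}) ∪
             {w | ∃ r' : 𝓡, w ∈ {w | s w ∈ B r' (E w)}}) := by
         refine Pr_mono hq0 fun w _ hw => ?_
         by_cases hw1 : w ∈ 𝒜
         · by_cases hw2 : lr q s E (s w) (E w) ≤ Real.exp ((h + 1) / β)
           · right
             refine ⟨r w, ?_⟩
             change s w ∈ B (r w) (E w)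
             rw [hB]
             refine Finset.mem_filter.2 ⟨Finset.mem_filter.2 ⟨Finset.mem_univ _, hw2, w, hw1, rfl,
               rfl, rfl⟩, ?_⟩
             intro hcon
             exact hw ⟨hw1, hw2, hcon⟩
           · left
             right
             exact not_le.1 hw2
         · left
           left
           exact hw1
       have ht := typical hq s E hN h β hβ hh hH
       have hs1 : ∀ r', Pr q {w | s w ∈ B r' (E w)} ≤ Real.exp ((h + 1) / β) * σ := by
         intro r'
         refine small hq s E hN (B r') _ σ (Real.exp_pos _).le ?_ (hBc r')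
         intro a x hx
         exact (hZmem _ _ _ (Finset.mem_filter.1 hx).1).1
       have hs2 : Pr q {w | ∃ r' : 𝓡, w ∈ {w | s w ∈ B r' (E w)}} ≤ β := by
         refine (Pr_iUnion hq0 _).trans ((Finset.sum_le_sum fun r' _ => hs1 r').trans ?_)
         rw [Finset.sum_const, Finset.card_univ, nsmul_eq_mul, hσdef]
         have e1 : Real.exp ((h + 1) / β) * (Real.exp (-((h + 1) / β)) * β / R) = β / R := by
           have : Real.exp ((h + 1) / β) * Real.exp (-((h + 1) / β)) = 1 := by
             rw [← Real.exp_add, add_neg_cancel, Real.exp_zero]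
           rw [mul_div_assoc', ← mul_assoc, this, one_mul]
         rw [e1]
         have hR0 : 0 < R := lt_of_lt_of_le one_pos hR
         have e2 : (Fintype.card 𝓡 : ℝ) = R - 1 := by rw [← hRdef]; ring
         rw [e2, mul_div_assoc', div_le_iff₀ hR0]
         nlinarith only [hβ]
       refine hsub.trans ((Pr_union_le hq0 _ _).trans ?_)
       have hu := Pr_union_le hq0 𝒜ᶜ {w | Real.exp ((h + 1) / β) < lr q s E (s w) (E w)}
       have : 3 * β ≤ 9 * (Cb * Cr) * β := by nlinarith only [hβ, hCC]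
       linarith only [h𝒜, ht, hs2, hu, this]
     · intro w
       dsimp only
       split_ifs with hw
       · have e1 : ((c (E w) (r w) (s w) : ℕ) : ℝ) ≤ m (E w) (r w) := by
           exact_mod_cast hw.1.le
         exact e1.trans (hm _ _)
       · rw [Nat.cast_zero]
         exact (Real.exp_pos _).le
     · intro a r' i' j
       exact h2 a r' i' j
     · intro a r' i' y hy
       dsimp only
       rcases lt_or_ge i' (m a r') with hi | hi
       · obtain ⟨hX1, hX2, hX3⟩ := h3 a r' i' hi
         have hCb0 : (0 : ℝ) < Cb := by linarith only [hCb1]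
         set ρ : ℝ := σ ^ Cb / Cb with hρ
         have hρ0 : 0 < ρ := div_pos hσC hCb0
         have hρ1 : ρ ≤ 1 := by
           rw [hρ, div_le_one hCb0]
           exact (pow_le_one₀ hσ0.le hσ1).trans hCb1
         have hρC : Real.exp (-(3 * K * Cb * Cr)) ≤ ρ ^ Cr := by
           have := pow_le_pow_left₀ (Real.exp_pos _).le f5 Cr
           rw [← Real.exp_nat_mul] at this
           refine le_trans (le_of_eq ?_) this
           congr 1
           ring
         have hcond : (Cr : ℝ) ≤ ρ ^ Cr * N := by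
           have e1 : Real.exp (-(3 * K * Cb * Cr)) * Real.exp (9 * (Cb * Cr) * K) ≤ ρ ^ Cr * N :=
             mul_le_mul hρC hNexp (Real.exp_pos _).le (pow_pos hρ0 _).le
           refine f4.trans (le_trans ?_ e1)
           rw [← Real.exp_add, Real.exp_le_exp]
           nlinarith only [hKC', hKC1]
         set M : ℝ := 2 + Cb * (1 / σ) ^ Cb * E₁ with hM
         have hM0 : 0 ≤ M := by positivity
         have hcount : ρ * (N : ℝ) ^ n ≤ ((univ.filter fun x : Fin n → Fin N =>
             |MvPolynomial.eval (fun i => ((x i : ℕ) : ℝ)) (Q a r' i')| ≤ M).card : ℝ) := by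
           have e1 : ρ * (N : ℝ) ^ n ≤ (X a r' i').card := by
             rw [hρ, div_mul_eq_mul_div, div_le_iff₀ hCb0, mul_comm _ (Cb : ℝ)]
             exact hX2
           refine e1.trans ?_
           have : (X a r' i').card ≤ (univ.filter fun x : Fin n → Fin N =>
             |MvPolynomial.eval (fun i => ((x i : ℕ) : ℝ)) (Q a r' i')| ≤ M).card := by
             refine Finset.card_le_card fun x hx => Finset.mem_filter.2 ⟨Finset.mem_univ _, ?_⟩
             have e2 := hX3 x hx
             obtain ⟨-, w, hw, hEw, hrw, hsw⟩ := hZmem _ _ _ (hX1 hx)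
             have e3 := hfv w hw
             rw [hEw, hrw, hsw] at e3
             have e4 := hv2 w hw
             rw [e3] at e2
             have e5 : |ev (Q a r' i') x| ≤ |v w| + |v w - ev (Q a r' i') x| := by
               have := abs_sub_abs_le_abs_sub (ev (Q a r' i') x) (v w)
               rw [abs_sub_comm] at this
               linarith only [this]
             change |ev (Q a r' i') x| ≤ M
             rw [hM]
             linarith only [e2, e4, e5]
           exact_mod_cast this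
         have hfin := hrm N (Q a r' i') ρ 4 M (h2 a r' i') hρ0 hρ1 hcond (by norm_num) hM0 hcount y hy
         refine hfin.trans ?_
         -- the numerical bound
         have g1 : (4 / ρ) ^ Cr ≤ Real.exp (2 * K * Cr + 3 * K * Cb * Cr) := by
           rw [div_pow, div_le_iff₀ (pow_pos hρ0 _)]
           have e1 : (4 : ℝ) ^ Cr ≤ Real.exp (2 * K * Cr) := by
             have e2 : (4 : ℝ) ≤ Real.exp (2 * K) := by
               have e3 : (4 : ℝ) ≤ Real.exp 2 := by
                 have := Real.exp_one_gt_d9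
                 have e4 : Real.exp 2 = Real.exp 1 * Real.exp 1 := by
                   rw [← Real.exp_add]
                   norm_num
                 rw [e4]
                 nlinarith only [this]
               exact e3.trans (Real.exp_le_exp.2 (by linarith only [hK1]))
             have := pow_le_pow_left₀ (by norm_num : (0 : ℝ) ≤ 4) e2 Cr
             rw [← Real.exp_nat_mul] at this
             refine this.trans (le_of_eq ?_)
             congr 1
             ring
           have e2 : Real.exp (2 * K * Cr) = Real.exp (2 * K * Cr + 3 * K * Cb * Cr) *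
               Real.exp (-(3 * K * Cb * Cr)) := by
             rw [← Real.exp_add]
             congr 1
             ring
           rw [e2] at e1
           exact e1.trans (mul_le_mul_of_nonneg_left hρC (Real.exp_pos _).le)
         have g2 : M ≤ (1 + E₁) * Real.exp (3 * K * Cb) := by
           have e1 : (2 : ℝ) ≤ Real.exp (3 * K * Cb) := by
             have e2 := Real.add_one_le_exp (3 * K * (Cb : ℝ))
             nlinarith only [hCb1, e2, hK1]
           have e3 : Cb * (1 / σ) ^ Cb * E₁ ≤ Real.exp (3 * K * Cb) * E₁ :=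
             mul_le_mul_of_nonneg_right f2 hE₁
           rw [hM]
           linarith only [e1, e3]
         have g3 : (Cr : ℝ) * (4 / ρ) ^ Cr ≤ Real.exp (K * Cr) *
             Real.exp (2 * K * Cr + 3 * K * Cb * Cr) :=
           mul_le_mul f4 g1 (by positivity) (Real.exp_pos _).le
         have g4 : (Cr : ℝ) * (4 / ρ) ^ Cr * M ≤ (Real.exp (K * Cr) *
             Real.exp (2 * K * Cr + 3 * K * Cb * Cr)) * ((1 + E₁) * Real.exp (3 * K * Cb)) :=
           mul_le_mul g3 g2 hM0 (by positivity)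
         refine g4.trans ?_
         have g5 : (Real.exp (K * Cr) * Real.exp (2 * K * Cr + 3 * K * Cb * Cr)) *
             ((1 + E₁) * Real.exp (3 * K * Cb)) =
             (1 + E₁) * Real.exp (K * Cr + (2 * K * Cr + 3 * K * Cb * Cr) + 3 * K * Cb) := by
           rw [Real.exp_add (K * Cr + (2 * K * Cr + 3 * K * Cb * Cr)) (3 * K * Cb),
             Real.exp_add (K * Cr) (2 * K * Cr + 3 * K * Cb * Cr)]
           ring
         rw [g5]
         refine mul_le_mul_of_nonneg_left (Real.exp_le_exp.2 ?_) (by linarith only [hE₁])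
         nlinarith only [hKC, hKC']
       · rw [h4 a r' i' hi, map_zero, abs_zero]
         positivity
     · rintro w ⟨hw1, hw2, hw3⟩
       dsimp only
       rw [if_pos hw3]
       have e1 := (h3 (E w) (r w) (c (E w) (r w) (s w)) hw3.1).2.2 (s w) hw3.2
       rw [hfv w hw1] at e1
       refine e1.trans ?_
       rw [mul_comm E₁]
       refine mul_le_mul_of_nonneg_right (f2.trans (Real.exp_le_exp.2 ?_)) hE₁
       nlinarith only [hKC, hKC1]

end Pool.KBX
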